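import Pool.Agent.V7H24.Cov.FrameHex

set_option autoImplicit false
open MeasureTheory Set Pool.Agent.V7H8.Cover

namespace Pool.Agent.V7H24.Cov

/-- upper envelope -/
noncomputable def up (K : Set (ℝ × ℝ)) (x : ℝ) : ℝ := sSup (Prod.mk x ⁻¹' K)

/-- lower envelope -/
noncomputable def lo (K : Set (ℝ × ℝ)) (x : ℝ) : ℝ := sInf (Prod.mk x ⁻¹' K)

theorem slice_compact {K : Set (ℝ × ℝ)} (hK : IsCompact K) (x : ℝ) :
    IsCompact (Prod.mk x ⁻¹' K) := by
  have hc : IsClosed (Prod.mk x ⁻¹' K) := hK.isClosed.preimage (by fun_prop)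
  have hb : Prod.mk x ⁻¹' K ⊆ Prod.snd '' K := fun s hs => ⟨(x, s), hs, rfl⟩
  exact (hK.image continuous_snd).of_isClosed_subset hc hb

theorem le_up {K : Set (ℝ × ℝ)} (hK : IsCompact K) {x y : ℝ} (h : (x, y) ∈ K) : y ≤ up K x :=
  le_csSup (slice_compact hK x).bddAbove h

theorem lo_le {K : Set (ℝ × ℝ)} (hK : IsCompact K) {x y : ℝ} (h : (x, y) ∈ K) : lo K x ≤ y :=
  csInf_le (slice_compact hK x).bddBelow h

/-- nonempty slices over `[0,m]` -/
def Full (K : Set (ℝ × ℝ)) (m : ℝ) : Prop := ∀ x ∈ Icc (0:ℝ) m, ∃ y : ℝ, (x, y) ∈ K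

theorem up_mem {K : Set (ℝ × ℝ)} (hK : IsCompact K) {m : ℝ} (hf : Full K m) {x : ℝ}
    (hx : x ∈ Icc (0:ℝ) m) : (x, up K x) ∈ K :=
  (slice_compact hK x).sSup_mem (hf x hx)

theorem lo_mem {K : Set (ℝ × ℝ)} (hK : IsCompact K) {m : ℝ} (hf : Full K m) {x : ℝ}
    (hx : x ∈ Icc (0:ℝ) m) : (x, lo K x) ∈ K :=
  (slice_compact hK x).sInf_mem (hf x hx)

theorem up_concave {K : Set (ℝ × ℝ)} (hK : IsCompact K) (hc : Convex ℝ K) {m : ℝ} (hf : Full K m) :
    ConcaveOn ℝ (Icc 0 m) (up K) := by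
  refine ⟨convex_Icc 0 m, ?_⟩
  intro x hx y hy a b ha hb hab
  apply le_up hK
  have := hc (up_mem hK hf hx) (up_mem hK hf hy) ha hb hab
  simpa using this

theorem lo_convex {K : Set (ℝ × ℝ)} (hK : IsCompact K) (hc : Convex ℝ K) {m : ℝ} (hf : Full K m) :
    ConvexOn ℝ (Icc 0 m) (lo K) := by
  refine ⟨convex_Icc 0 m, ?_⟩
  intro x hx y hy a b ha hb hab
  apply lo_le hK
  have := hc (lo_mem hK hf hx) (lo_mem hK hf hy) ha hb hab
  simpa using this

/-- a concave function on an interval that is upper semicontinuous is continuous -/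
theorem cont_of_concave {f : ℝ → ℝ} {m : ℝ} (hm : 0 < m) (hf : ConcaveOn ℝ (Icc 0 m) f)
    (hu : ∀ c : ℝ, IsClosed {x | x ∈ Icc (0:ℝ) m ∧ c ≤ f x}) : ContinuousOn f (Icc 0 m) := by
  intro x0 hx0
  rw [ContinuousWithinAt, tendsto_order]
  constructor
  · -- lower bound
    intro c hc
    -- f x ≥ f x0 - C |x - x0|
    obtain ⟨C, hC⟩ : ∃ C : ℝ, ∀ x ∈ Icc (0:ℝ) m, f x0 - C * |x - x0| ≤ f x := by
      by_cases h0 : x0 = 0
      · refine ⟨|f m - f x0| / m, ?_⟩
        intro x hx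
        have h1 := hf.2 (left_mem_Icc.mpr hm.le) (right_mem_Icc.mpr hm.le)
          (show (0:ℝ) ≤ 1 - x / m by rw [sub_nonneg, div_le_one hm]; exact hx.2)
          (show (0:ℝ) ≤ x / m by exact div_nonneg hx.1 hm.le) (by ring)
        simp only [smul_eq_mul, mul_zero, zero_add] at h1
        rw [div_mul_cancel₀ _ hm.ne'] at h1
        rw [h0, sub_zero, abs_of_nonneg hx.1]
        have h2 : |f m - f 0| / m * x = |f m - f 0| * (x / m) := by ring
        rw [h2]
        have h3 : 0 ≤ x / m := div_nonneg hx.1 hm.le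
        nlinarith [neg_abs_le (f m - f 0), mul_le_mul_of_nonneg_right (neg_abs_le (f m - f 0)) h3]
      · by_cases h1 : x0 = m
        · refine ⟨|f 0 - f x0| / m, ?_⟩
          intro x hx
          have h1' := hf.2 (left_mem_Icc.mpr hm.le) (right_mem_Icc.mpr hm.le)
            (show (0:ℝ) ≤ 1 - x / m by rw [sub_nonneg, div_le_one hm]; exact hx.2)
            (show (0:ℝ) ≤ x / m by exact div_nonneg hx.1 hm.le) (by ring)
          simp only [smul_eq_mul, mul_zero, zero_add] at h1'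
          rw [div_mul_cancel₀ _ hm.ne'] at h1'
          rw [h1, abs_sub_comm x m, abs_of_nonneg (by linarith [hx.2] : 0 ≤ m - x)]
          have h2 : |f 0 - f m| / m * (m - x) = |f 0 - f m| * (1 - x / m) := by
            field_simp
          rw [h2]
          have h3 : 0 ≤ 1 - x / m := by rw [sub_nonneg, div_le_one hm]; exact hx.2
          nlinarith [mul_le_mul_of_nonneg_right (neg_abs_le (f 0 - f m)) h3]
        · have hx00 : 0 < x0 := lt_of_le_of_ne hx0.1 (Ne.symm h0)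
          have hx0m : x0 < m := lt_of_le_of_ne hx0.2 h1
          have hsub : Ioo (0:ℝ) m ⊆ Icc 0 m := Ioo_subset_Icc_self
          refine ⟨|f m - f x0| / (m - x0) + |f 0 - f x0| / x0, ?_⟩
          intro x hx
          have hA : 0 ≤ |f m - f x0| / (m - x0) := div_nonneg (abs_nonneg _) (by linarith)
          have hB : 0 ≤ |f 0 - f x0| / x0 := div_nonneg (abs_nonneg _) hx00.le
          rcases le_total x0 x with hle | hle
          · have h4 : 0 ≤ (x - x0) / (m - x0) := div_nonneg (by linarith) (by linarith)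
            have h1' := hf.2 hx0 (right_mem_Icc.mpr hm.le)
              (show (0:ℝ) ≤ 1 - (x - x0) / (m - x0) by
                rw [sub_nonneg, div_le_one (by linarith)]; linarith [hx.2])
              h4 (by ring)
            simp only [smul_eq_mul] at h1'
            have h5 : (1 - (x - x0) / (m - x0)) * x0 + (x - x0) / (m - x0) * m = x := by
              have : m - x0 ≠ 0 := by linarith
              field_simp
              ring
            rw [h5] at h1'
            rw [abs_of_nonneg (by linarith : 0 ≤ x - x0), add_mul]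
            have h6 : |f m - f x0| / (m - x0) * (x - x0) = |f m - f x0| * ((x - x0) / (m - x0)) := by ring
            rw [h6]
            nlinarith [mul_le_mul_of_nonneg_right (neg_abs_le (f m - f x0)) h4, mul_nonneg hB (by linarith : 0 ≤ x - x0)]
          · have h4 : 0 ≤ (x0 - x) / x0 := div_nonneg (by linarith) (by linarith)
            have h1' := hf.2 hx0 (left_mem_Icc.mpr hm.le)
              (show (0:ℝ) ≤ 1 - (x0 - x) / x0 by
                rw [sub_nonneg, div_le_one (by linarith)]; linarith [hx.1])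
              h4 (by ring)
            simp only [smul_eq_mul, mul_zero, add_zero] at h1'
            have h5 : (1 - (x0 - x) / x0) * x0 = x := by
              field_simp
              ring
            rw [h5] at h1'
            rw [abs_sub_comm x x0, abs_of_nonneg (by linarith : 0 ≤ x0 - x), add_mul]
            have h6 : |f 0 - f x0| / x0 * (x0 - x) = |f 0 - f x0| * ((x0 - x) / x0) := by ring
            rw [h6]
            nlinarith [mul_le_mul_of_nonneg_right (neg_abs_le (f 0 - f x0)) h4, mul_nonneg hA (by linarith : 0 ≤ x0 - x)]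
    have hlim : Filter.Tendsto (fun x => f x0 - C * |x - x0|) (nhdsWithin x0 (Icc 0 m)) (nhds (f x0)) := by
      have : Filter.Tendsto (fun x => f x0 - C * |x - x0|) (nhds x0) (nhds (f x0 - C * |x0 - x0|)) := by
        apply Continuous.tendsto
        fun_prop
      simp only [sub_self, abs_zero, mul_zero, sub_zero] at this
      exact this.mono_left nhdsWithin_le_nhds
    have h1 := (tendsto_order.mp hlim).1 c hc
    filter_upwards [h1, self_mem_nhdsWithin] with x hx1 hx2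
    exact hx1.trans_le (hC x hx2)
  · intro c hc
    have hcl := hu c
    have hnot : x0 ∉ {x | x ∈ Icc (0:ℝ) m ∧ c ≤ f x} := by
      intro h
      exact absurd h.2 (not_le.mpr hc)
    have h1 := hcl.isOpen_compl.mem_nhds hnot
    filter_upwards [mem_nhdsWithin_of_mem_nhds h1, self_mem_nhdsWithin] with x hx1 hx2
    by_contra hcon
    push Not at hcon
    exact hx1 ⟨hx2, hcon⟩

theorem up_cont {K : Set (ℝ × ℝ)} (hK : IsCompact K) (hc : Convex ℝ K) {m : ℝ} (hm : 0 < m)
    (hf : Full K m) : ContinuousOn (up K) (Icc 0 m) := by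
  apply cont_of_concave hm (up_concave hK hc hf)
  intro c
  have : {x | x ∈ Icc (0:ℝ) m ∧ c ≤ up K x} = Icc 0 m ∩ (Prod.fst '' (K ∩ {p | c ≤ p.2})) := by
    ext x
    constructor
    · rintro ⟨hx, hcx⟩
      exact ⟨hx, (x, up K x), ⟨up_mem hK hf hx, hcx⟩, rfl⟩
    · rintro ⟨hx, ⟨p, ⟨hp, hcp⟩, rfl⟩⟩
      exact ⟨hx, le_trans hcp (le_up hK (by simpa using hp))⟩
  rw [this]
  apply isClosed_Icc.inter
  apply IsCompact.isClosed
  apply IsCompact.image _ continuous_fst
  exact hK.inter_right (isClosed_le continuous_const continuous_snd)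

theorem lo_cont {K : Set (ℝ × ℝ)} (hK : IsCompact K) (hc : Convex ℝ K) {m : ℝ} (hm : 0 < m)
    (hf : Full K m) : ContinuousOn (lo K) (Icc 0 m) := by
  have h : ContinuousOn (fun x => - lo K x) (Icc 0 m) := by
    apply cont_of_concave hm (f := fun x => - lo K x) (lo_convex hK hc hf).neg
    intro c
    have : {x | x ∈ Icc (0:ℝ) m ∧ c ≤ - lo K x} = Icc 0 m ∩ (Prod.fst '' (K ∩ {p | p.2 ≤ -c})) := by
      ext x
      constructor
      · rintro ⟨hx, hcx⟩
        exact ⟨hx, (x, lo K x), ⟨lo_mem hK hf hx, (by show lo K x ≤ -c; linarith)⟩, rfl⟩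
      · rintro ⟨hx, ⟨p, ⟨hp, hcp⟩, rfl⟩⟩
        have h1 := lo_le hK (x := p.1) (y := p.2) (by simpa using hp)
        have h2 : p.2 ≤ -c := hcp
        exact ⟨hx, by linarith⟩
    rw [this]
    apply isClosed_Icc.inter
    apply IsCompact.isClosed
    apply IsCompact.image _ continuous_fst
    exact hK.inter_right (isClosed_le continuous_snd continuous_const)
  have h' := h.neg
  refine h'.congr ?_
  intro x _
  simp

theorem integral_le {K : Set (ℝ × ℝ)} (hK : IsCompact K) (hc : Convex ℝ K) {m : ℝ} (hm : 0 < m)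
    (hf : Full K m) : (∫ x in (0:ℝ)..m, (up K x - lo K x)) ≤ (volume K).toReal := by
  have i1 : IntegrableOn (up K) (Icc 0 m) := (up_cont hK hc hm hf).integrableOn_Icc
  have i2 : IntegrableOn (lo K) (Icc 0 m) := (lo_cont hK hc hm hf).integrableOn_Icc
  have hle : ∀ x ∈ Icc (0:ℝ) m, lo K x ≤ up K x := by
    intro x hx
    exact lo_le hK (up_mem hK hf hx)
  have hreg := volume_regionBetween_eq_integral (μ := (volume : Measure ℝ)) i2 i1 measurableSet_Icc hle
  have hsub : regionBetween (lo K) (up K) (Icc 0 m) ⊆ K := by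
    rintro ⟨x, y⟩ ⟨hx, hy⟩
    simp only at hx hy
    have h1 := up_mem hK hf hx
    have h2 := lo_mem hK hf hx
    have hd : 0 < up K x - lo K x := by linarith [hy.1, hy.2]
    have h3 := hc h2 h1 (show (0:ℝ) ≤ (up K x - y) / (up K x - lo K x) by
      exact div_nonneg (by linarith [hy.2]) hd.le)
      (show (0:ℝ) ≤ (y - lo K x) / (up K x - lo K x) by
      exact div_nonneg (by linarith [hy.1]) hd.le) (by
        rw [← add_div, div_eq_one_iff_eq hd.ne']; ring)
    convert h3 using 1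
    ext
    · simp only [Prod.fst_add, Prod.smul_fst, smul_eq_mul]
      field_simp
      ring
    · simp only [Prod.snd_add, Prod.smul_snd, smul_eq_mul]
      field_simp
      ring
  have h4 : ENNReal.ofReal (∫ y in Icc 0 m, (up K - lo K) y) ≤ volume K := by
    rw [← hreg, ← Measure.volume_eq_prod]
    exact measure_mono hsub
  have h5 : (∫ x in (0:ℝ)..m, (up K x - lo K x)) = ∫ y in Icc 0 m, (up K - lo K) y := by
    rw [intervalIntegral.integral_of_le hm.le, integral_Icc_eq_integral_Ioc]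
    rfl
  rw [h5]
  exact (ENNReal.ofReal_le_iff_le_toReal hK.measure_lt_top.ne).mp h4

theorem frame_full {K : Set (ℝ × ℝ)} {m Λ k xs : ℝ} (h : Frame K m Λ k xs) : Full K m := by
  intro x hx
  have hm := (frame_facts h).1
  obtain ⟨y0, h0, hm'⟩ := h.ctc
  have h1 := h.cvx h0 hm' (show (0:ℝ) ≤ 1 - x / m by
    rw [sub_nonneg, div_le_one (by linarith)]; exact hx.2)
    (show (0:ℝ) ≤ x / m by exact div_nonneg hx.1 (by linarith)) (by ring)
  refine ⟨y0, ?_⟩
  convert h1 using 1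
  have hm0 : m ≠ 0 := by linarith
  ext
  · simp only [Prod.fst_add, Prod.smul_fst, smul_eq_mul]
    field_simp
    ring
  · simp only [Prod.snd_add, Prod.smul_snd, smul_eq_mul]
    ring

/-- trigonometric distances used for the four rhombi -/
theorem trig_facts {s : ℝ} (hs : s ∈ Icc (0:ℝ) (Real.pi / 6)) :
    (Real.cos s ^ 2 + Real.sin s ^ 2 = 1) ∧
    (Real.cos (Real.pi / 3 - s) ^ 2 + Real.sin (Real.pi / 3 - s) ^ 2 = 1) ∧
    (1 / 2 ≤ Real.cos s) ∧ (1 / 2 ≤ Real.cos (Real.pi / 3 - s)) ∧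
    (Real.cos s * Real.cos (Real.pi / 3 - s) - Real.sin s * Real.sin (Real.pi / 3 - s) = 1 / 2) := by
  refine ⟨Real.cos_sq_add_sin_sq s, Real.cos_sq_add_sin_sq _, ?_, ?_, ?_⟩
  · rw [← Real.cos_pi_div_three]
    apply Real.cos_le_cos_of_nonneg_of_le_pi hs.1 (by linarith [Real.pi_pos])
    linarith [hs.2, Real.pi_pos]
  · rw [← Real.cos_pi_div_three]
    apply Real.cos_le_cos_of_nonneg_of_le_pi (by linarith [hs.2, Real.pi_pos])
      (by linarith [Real.pi_pos])
    linarith [hs.1]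
  · rw [← Real.cos_add]
    rw [show s + (Real.pi / 3 - s) = Real.pi / 3 by ring, Real.cos_pi_div_three]

/-- covering four points with horizontal extent one -/
theorem four_points {K : Set (ℝ × ℝ)} {m Λ k xs : ℝ} (h : Frame K m Λ k xs)
    (x1 y1 x2 y2 : ℝ) (h1 : x1 ^ 2 + y1 ^ 2 ≤ 1) (h2 : (x1 - 1) ^ 2 + y1 ^ 2 ≤ 1)
    (h3 : x2 ^ 2 + y2 ^ 2 ≤ 1) (h4 : (x2 - 1) ^ 2 + y2 ^ 2 ≤ 1)
    (h5 : (x1 - x2) ^ 2 + (y1 - y2) ^ 2 ≤ 1) :
    ∃ a ∈ Icc (0:ℝ) (m - 1), ∃ b : ℝ, (a, b) ∈ K ∧ (a + 1, b) ∈ K ∧ (a + x1, b + y1) ∈ K ∧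
      (a + x2, b + y2) ∈ K := by
  obtain ⟨v, hv⟩ := h.cov {(0, 0), (1, 0), (x1, y1), (x2, y2)} (by
    intro p hp q hq
    simp only [mem_insert_iff, mem_singleton_iff] at hp hq
    rcases hp with rfl | rfl | rfl | rfl <;> rcases hq with rfl | rfl | rfl | rfl <;>
      simp only [sq2] <;> linarith only [h1, h2, h3, h4, h5]) (by
    refine ⟨(0, 0), by simp, (1, 0), by simp, ?_⟩
    simp only [sq2]; norm_num)
  have p0 := hv (0, 0) (by simp)
  have p1 := hv (1, 0) (by simp)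
  have p2 := hv (x1, y1) (by simp)
  have p3 := hv (x2, y2) (by simp)
  have b1 := (h.proj _ p0).1
  have b2 := (h.proj _ p1).2
  simp only [Prod.fst_add, zero_add] at b1 b2
  refine ⟨v.1, ⟨b1, by linarith⟩, v.2, ?_, ?_, ?_, ?_⟩
  · convert p0 using 1
    ext <;> simp
  · convert p1 using 1
    ext
    · simp [add_comm]
    · simp
  · convert p2 using 1
    ext <;> simp [add_comm]
  · convert p3 using 1
    ext <;> simp [add_comm]

/-- module F, with the analytic inequality as a hypothesis -/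
theorem frame_slices_of
    (analysis : ∀ (m xs k Λ y0 : ℝ) (F G : ℝ → ℝ) (_ : 1 ≤ m) (_ : m ≤ 1 + 0.1415)
    (_ : xs ∈ Icc (0:ℝ) m)
    (_ : ContinuousOn F (Icc 0 m)) (_ : ContinuousOn G (Icc 0 m))
    (_ : ConcaveOn ℝ (Icc 0 m) F) (_ : ConvexOn ℝ (Icc 0 m) G)
    (_ : ∀ x ∈ Icc (0:ℝ) m, F x ≤ F xs + k * (x - xs))
    (_ : ∀ x ∈ Icc (0:ℝ) m, G xs + k * (x - xs) ≤ G x)
    (_ : F xs - G xs = Λ)
    (_ : y0 ≤ F 0) (_ : G 0 ≤ y0) (_ : y0 ≤ F m) (_ : G m ≤ y0)
    (_ : ∀ s ∈ Icc (0:ℝ) (Real.pi / 6), ∃ a ∈ Icc (0:ℝ) (m - 1),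
      Real.sin s + Real.sin (Real.pi / 3 - s) ≤
        F (a + Real.cos s) - G (a + Real.cos (Real.pi / 3 - s)))
    (_ : ∀ s ∈ Icc (0:ℝ) (Real.pi / 6), ∃ a ∈ Icc (0:ℝ) (m - 1),
      Real.sin s + Real.sin (Real.pi / 3 - s) ≤
        F (a + Real.cos (Real.pi / 3 - s)) - G (a + Real.cos s))
    (_ : ∀ s ∈ Icc (0:ℝ) (Real.pi / 6), ∃ a ∈ Icc (0:ℝ) (m - 1),
      Real.sin s + Real.sin (Real.pi / 3 - s) ≤
        F (a + (1 - Real.cos s)) - G (a + (1 - Real.cos (Real.pi / 3 - s))))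
    (_ : ∀ s ∈ Icc (0:ℝ) (Real.pi / 6), ∃ a ∈ Icc (0:ℝ) (m - 1),
      Real.sin s + Real.sin (Real.pi / 3 - s) ≤
        F (a + (1 - Real.cos (Real.pi / 3 - s))) - G (a + (1 - Real.cos s)))
    (_ : ∃ a ∈ Icc (0:ℝ) (m - 1), ∃ η : ℝ, η ≤ F a ∧ η ≤ F (a + 1) ∧
      G (a + 1 / 2) ≤ η - Real.sqrt 3 / 2)
    (_ : ∃ a ∈ Icc (0:ℝ) (m - 1), ∃ η : ℝ, G a ≤ η ∧ G (a + 1) ≤ η ∧
      η + Real.sqrt 3 / 2 ≤ F (a + 1 / 2)),
    Astar + 0.098 * (m - 1) - 1.5 * |k| * (m - 1) ^ 2 + (Λ - 1) * (0.175 - 1.485 * (m - 1))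
      ≤ ∫ x in (0:ℝ)..m, (F x - G x))
    {K : Set (ℝ × ℝ)} {m Λ k xs : ℝ} (h : Frame K m Λ k xs)
    (hm2 : m ≤ 1 + 0.1415) :
    Astar + 0.098 * (m - 1) - 1.5 * |k| * (m - 1) ^ 2 + (Λ - 1) * (0.175 - 1.485 * (m - 1))
      ≤ (volume K).toReal := by
  obtain ⟨hm1, hΛ0, -⟩ := frame_facts h
  have hm0 : 0 < m := by linarith
  have hf := frame_full h
  have hK := h.cpt
  obtain ⟨y1, y2, hy1, hy2, hy12⟩ := h.chord
  have hxs : xs ∈ Icc (0:ℝ) m := h.proj _ hy1
  obtain ⟨y0, h0, hm'⟩ := h.ctc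
  have hL : up K xs - lo K xs = Λ := by
    apply le_antisymm
    · have := h.line _ (lo_mem hK hf hxs) _ (up_mem hK hf hxs)
      simpa using this
    · have e1 := le_up hK hy2
      have e2 := lo_le hK hy1
      linarith
  have hs3 : Real.sqrt 3 ^ 2 = 3 := Real.sq_sqrt (by norm_num)
  refine le_trans (analysis m xs k Λ y0 (up K) (lo K) hm1 hm2 hxs (up_cont hK h.cvx hm0 hf)
    (lo_cont hK h.cvx hm0 hf) (up_concave hK h.cvx hf) (lo_convex hK h.cvx hf) ?_ ?_ hL
    (le_up hK h0) (lo_le hK h0) (le_up hK hm') (lo_le hK hm') ?_ ?_ ?_ ?_ ?_ ?_)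
    (integral_le hK h.cvx hm0 hf)
  · intro x hx
    have := h.line _ (lo_mem hK hf hxs) _ (up_mem hK hf hx)
    simp only at this
    linarith
  · intro x hx
    have := h.line _ (lo_mem hK hf hx) _ (up_mem hK hf hxs)
    simp only at this
    linarith
  · intro s hs
    obtain ⟨t1, t2, t3, t4, t5⟩ := trig_facts hs
    obtain ⟨a, ha, b, -, -, c1, c2⟩ := four_points h (Real.cos s) (Real.sin s)
      (Real.cos (Real.pi / 3 - s)) (-Real.sin (Real.pi / 3 - s)) (by linarith only [t1, t2, t3, t4, t5])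
      (by linarith only [t1, t2, t3, t4, t5]) (by linarith only [t1, t2, t3, t4, t5])
      (by linarith only [t1, t2, t3, t4, t5]) (by linarith only [t1, t2, t3, t4, t5])
    refine ⟨a, ha, ?_⟩
    have e1 := le_up hK c1
    have e2 := lo_le hK c2
    linarith
  · intro s hs
    obtain ⟨t1, t2, t3, t4, t5⟩ := trig_facts hs
    obtain ⟨a, ha, b, -, -, c1, c2⟩ := four_points h (Real.cos (Real.pi / 3 - s))
      (Real.sin (Real.pi / 3 - s)) (Real.cos s) (-Real.sin s) (by linarith only [t1, t2, t3, t4, t5])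
      (by linarith only [t1, t2, t3, t4, t5]) (by linarith only [t1, t2, t3, t4, t5])
      (by linarith only [t1, t2, t3, t4, t5]) (by linarith only [t1, t2, t3, t4, t5])
    refine ⟨a, ha, ?_⟩
    have e1 := le_up hK c1
    have e2 := lo_le hK c2
    linarith
  · intro s hs
    obtain ⟨t1, t2, t3, t4, t5⟩ := trig_facts hs
    obtain ⟨a, ha, b, -, -, c1, c2⟩ := four_points h (1 - Real.cos s) (Real.sin s)
      (1 - Real.cos (Real.pi / 3 - s)) (-Real.sin (Real.pi / 3 - s)) (by linarith only [t1, t2, t3, t4, t5])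
      (by linarith only [t1, t2, t3, t4, t5]) (by linarith only [t1, t2, t3, t4, t5])
      (by linarith only [t1, t2, t3, t4, t5]) (by linarith only [t1, t2, t3, t4, t5])
    refine ⟨a, ha, ?_⟩
    have e1 := le_up hK c1
    have e2 := lo_le hK c2
    linarith
  · intro s hs
    obtain ⟨t1, t2, t3, t4, t5⟩ := trig_facts hs
    obtain ⟨a, ha, b, -, -, c1, c2⟩ := four_points h (1 - Real.cos (Real.pi / 3 - s))
      (Real.sin (Real.pi / 3 - s)) (1 - Real.cos s) (-Real.sin s) (by linarith only [t1, t2, t3, t4, t5])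
      (by linarith only [t1, t2, t3, t4, t5]) (by linarith only [t1, t2, t3, t4, t5])
      (by linarith only [t1, t2, t3, t4, t5]) (by linarith only [t1, t2, t3, t4, t5])
    refine ⟨a, ha, ?_⟩
    have e1 := le_up hK c1
    have e2 := lo_le hK c2
    linarith
  · obtain ⟨a, ha, b, c3, c4, c1, -⟩ := four_points h (1/2) (-(Real.sqrt 3 / 2)) 0 0
      (by linarith only [hs3]) (by linarith only [hs3]) (by norm_num) (by norm_num)
      (by linarith only [hs3])
    refine ⟨a, ha, b, le_up hK c3, le_up hK c4, ?_⟩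
    have e2 := lo_le hK c1
    linarith
  · obtain ⟨a, ha, b, c3, c4, c1, -⟩ := four_points h (1/2) (Real.sqrt 3 / 2) 0 0
      (by linarith only [hs3]) (by linarith only [hs3]) (by norm_num) (by norm_num)
      (by linarith only [hs3])
    refine ⟨a, ha, b, lo_le hK c3, lo_le hK c4, ?_⟩
    have e2 := le_up hK c1
    linarith

end Pool.Agent.V7H24.Cov
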