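import Pool.Agent.V7H24.Cov.Zono
import Pool.Agent.V7H8.CoverBasic

set_option autoImplicit false
open MeasureTheory Set Pool.Agent.V7H8.Cover

namespace Pool.Agent.V7H24.Cov

/-- parallelogram bound -/
theorem tri_bound {K : Set (ℝ × ℝ)} (hK : Convex ℝ K) (hv : volume K ≠ ⊤) {a b p : ℝ × ℝ}
    (ha : a ∈ K) (hb : b ∈ K) (hp : p ∈ K) :
    |(p.1 - a.1) * (b.2 - a.2) - (p.2 - a.2) * (b.1 - a.1)| ≤ 4 * (volume K).toReal := by
  set w : ℝ × ℝ := ((p.1 - a.1) / 2, (p.2 - a.2) / 2) with hw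
  set X := sweep {a} ((b.1 - a.1) / 2, (b.2 - a.2) / 2) with hX
  have cX : IsCompact X := sweep_compact isCompact_singleton _
  have vX : Convex ℝ X := sweep_convex (convex_singleton a) _
  have ha' : a ∈ X := subset_sweep _ _ rfl
  have hb' : (a.1 + (b.1 - a.1) / 2, a.2 + (b.2 - a.2) / 2) ∈ X := by
    rw [hX, mem_sweep]
    exact ⟨1, by simp, a, rfl, by ext <;> simp⟩
  have hsub : sweep X w ⊆ K := by
    intro y hy
    rw [mem_sweep] at hy
    obtain ⟨β, hβ, x, hx, rfl⟩ := hy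
    rw [hX, mem_sweep] at hx
    obtain ⟨α, hα, x', hx', rfl⟩ := hx
    rw [mem_singleton_iff] at hx'
    subst hx'
    -- (1 - α/2 - β/2) a + α/2 b + β/2 p
    have h1 : (1 - β / 2) • ((1 - α / (2 - β)) • x' + (α / (2 - β)) • b) + (β / 2) • p ∈ K := by
      have hβ2 : 0 < 2 - β := by linarith [hβ.2]
      have hfr : α / (2 - β) ≤ 1 := by
        rw [div_le_one hβ2]; linarith [hα.2, hβ.2]
      have hfr0 : 0 ≤ α / (2 - β) := div_nonneg hα.1 hβ2.le
      exact hK (hK ha hb (by linarith) hfr0 (by ring)) hp (by linarith [hβ.2])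
        (by linarith [hβ.1]) (by ring)
    have hβ2 : (2 - β) ≠ 0 := by
      have := hβ.2
      intro h
      linarith
    convert h1 using 1
    rw [hw]
    ext
    · simp only [Prod.fst_add, Prod.smul_fst, smul_eq_mul]
      field_simp
      ring
    · simp only [Prod.snd_add, Prod.smul_snd, smul_eq_mul]
      field_simp
      ring
  have hle : (volume (sweep X w)).toReal ≤ (volume K).toReal :=
    ENNReal.toReal_mono hv (measure_mono hsub)
  have h1 := sweep_area cX vX w _ _ ha' hb'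
  have h2 := sweep_area cX vX w _ _ hb' ha'
  have h0 : 0 ≤ (volume X).toReal := ENNReal.toReal_nonneg
  simp only [hw] at h1 h2 hle
  rw [abs_le]
  constructor
  · nlinarith
  · nlinarith

theorem bounded {K : Set (ℝ × ℝ)} (hK : Convex ℝ K) (hc : Cov K) (hv : volume K ≠ ⊤) :
    Bornology.IsBounded K := by
  obtain ⟨v, hvv⟩ := hc {(0, 0), (1, 0), (1/2, 1/2)} (by
    intro p hp q hq
    simp only [mem_insert_iff, mem_singleton_iff] at hp hq
    rcases hp with rfl | rfl | rfl <;> rcases hq with rfl | rfl | rfl <;>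
      simp only [sq2] <;> norm_num) (by
    refine ⟨(0, 0), by simp, (1, 0), by simp, ?_⟩
    simp [sq2])
  have ha := hvv (0, 0) (by simp)
  have hb := hvv (1, 0) (by simp)
  have hcc := hvv (1/2, 1/2) (by simp)
  set V := (volume K).toReal with hV
  rw [isBounded_iff_forall_norm_le]
  refine ⟨|v.1| + |v.2| + 16 * V, ?_⟩
  intro p hp
  have h1 := tri_bound hK hv ha hb hp
  have h2 := tri_bound hK hv ha hcc hp
  simp only [Prod.fst_add, Prod.snd_add, zero_add] at h1 h2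
  rw [abs_le] at h1 h2
  have hV0 : 0 ≤ V := ENNReal.toReal_nonneg
  have e1 : |p.2| ≤ |v.2| + 4 * V := by
    rw [abs_le]
    constructor
    · linarith [h1.1, h1.2, neg_abs_le v.2, le_abs_self v.2]
    · linarith [h1.1, h1.2, neg_abs_le v.2, le_abs_self v.2]
  have e2 : |p.1| ≤ |v.1| + 16 * V := by
    rw [abs_le]
    constructor
    · linarith [h1.1, h1.2, h2.1, h2.2, neg_abs_le v.1, le_abs_self v.1]
    · linarith [h1.1, h1.2, h2.1, h2.2, neg_abs_le v.1, le_abs_self v.1]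
  rw [Prod.norm_def, Real.norm_eq_abs, Real.norm_eq_abs]
  apply max_le
  · linarith [abs_nonneg v.2]
  · linarith [abs_nonneg v.1]

/-- directional width -/
noncomputable def wid (K : Set (ℝ × ℝ)) (u : ℝ × ℝ) : ℝ :=
  sSup ((fun z : (ℝ × ℝ) × (ℝ × ℝ) => (z.2.1 - z.1.1) * u.1 + (z.2.2 - z.1.2) * u.2) '' (K ×ˢ K))

theorem wid_cont {K : Set (ℝ × ℝ)} (hK : IsCompact K) : Continuous (wid K) := by
  unfold wid
  apply IsCompact.continuous_sSup
    (f := fun (u : ℝ × ℝ) (z : (ℝ × ℝ) × (ℝ × ℝ)) =>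
      (z.2.1 - z.1.1) * u.1 + (z.2.2 - z.1.2) * u.2) (hK.prod hK)
  simp only [Function.HasUncurry.uncurry, id]
  fun_prop

theorem le_wid {K : Set (ℝ × ℝ)} (hK : IsCompact K) (u : ℝ × ℝ) {p q : ℝ × ℝ}
    (hp : p ∈ K) (hq : q ∈ K) : (q.1 - p.1) * u.1 + (q.2 - p.2) * u.2 ≤ wid K u := by
  unfold wid
  apply le_csSup
  · apply IsCompact.bddAbove_image (hK.prod hK)
    fun_prop
  · exact ⟨(p, q), ⟨hp, hq⟩, rfl⟩

theorem exists_wid {K : Set (ℝ × ℝ)} (hK : IsCompact K) (hne : K.Nonempty) (u : ℝ × ℝ) :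
    ∃ p ∈ K, ∃ q ∈ K, (q.1 - p.1) * u.1 + (q.2 - p.2) * u.2 = wid K u := by
  have := (hK.prod hK).exists_sSup_image_eq (hne.prod hne)
    (f := fun z : (ℝ × ℝ) × (ℝ × ℝ) => (z.2.1 - z.1.1) * u.1 + (z.2.2 - z.1.2) * u.2)
    (by fun_prop)
  obtain ⟨z, hz, h⟩ := this
  exact ⟨z.1, hz.1, z.2, hz.2, h.symm⟩

theorem exists_min_wid {K : Set (ℝ × ℝ)} (hK : IsCompact K) :
    ∃ u : ℝ × ℝ, u.1 ^ 2 + u.2 ^ 2 = 1 ∧
      ∀ v : ℝ × ℝ, v.1 ^ 2 + v.2 ^ 2 = 1 → wid K u ≤ wid K v := by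
  have hcl : IsClosed {u : ℝ × ℝ | u.1 ^ 2 + u.2 ^ 2 = 1} :=
    isClosed_eq (by fun_prop) (by fun_prop)
  have hb : {u : ℝ × ℝ | u.1 ^ 2 + u.2 ^ 2 = 1} ⊆ Icc (-1) 1 ×ˢ Icc (-1) 1 := by
    intro u hu
    rw [mem_ofPred_eq] at hu
    refine ⟨⟨?_, ?_⟩, ⟨?_, ?_⟩⟩ <;> nlinarith [sq_nonneg u.1, sq_nonneg u.2]
  have hcomp : IsCompact {u : ℝ × ℝ | u.1 ^ 2 + u.2 ^ 2 = 1} :=
    (isCompact_Icc.prod isCompact_Icc).of_isClosed_subset hcl hb
  obtain ⟨u, hu, hmin⟩ := hcomp.exists_isMinOn ⟨(1, 0), by simp⟩ (wid_cont hK).continuousOn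
  exact ⟨u, hu, fun v hv => hmin hv⟩

/-- difference set -/
def dif (K : Set (ℝ × ℝ)) : Set (ℝ × ℝ) := {v | ∃ p ∈ K, ∃ q ∈ K, q - p = v}

theorem dif_compact {K : Set (ℝ × ℝ)} (hK : IsCompact K) : IsCompact (dif K) := by
  have : dif K = (fun z : (ℝ × ℝ) × (ℝ × ℝ) => z.2 - z.1) '' (K ×ˢ K) := by
    ext v
    constructor
    · rintro ⟨p, hp, q, hq, rfl⟩
      exact ⟨(p, q), ⟨hp, hq⟩, rfl⟩
    · rintro ⟨⟨p, q⟩, ⟨hp, hq⟩, rfl⟩
      exact ⟨p, hp, q, hq, rfl⟩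
  rw [this]
  exact (hK.prod hK).image (by fun_prop)

theorem dif_convex {K : Set (ℝ × ℝ)} (hK : Convex ℝ K) : Convex ℝ (dif K) := by
  rintro _ ⟨p, hp, q, hq, rfl⟩ _ ⟨p', hp', q', hq', rfl⟩ a b ha hb hab
  refine ⟨a • p + b • p', hK hp hp' ha hb hab, a • q + b • q', hK hq hq' ha hb hab, ?_⟩
  simp only [smul_sub]
  abel

/-- the ball of radius min width is in the difference body -/
theorem ball_dif {K : Set (ℝ × ℝ)} (hK : IsCompact K) (hc : Convex ℝ K) (hne : K.Nonempty) (m : ℝ)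
    (hm : ∀ v : ℝ × ℝ, v.1 ^ 2 + v.2 ^ 2 = 1 → m ≤ wid K v) (hm0 : 0 ≤ m)
    (v : ℝ × ℝ) (hv : v.1 ^ 2 + v.2 ^ 2 ≤ m ^ 2) : v ∈ dif K := by
  by_contra hcon
  obtain ⟨f, s, hf1, hf2⟩ := geometric_hahn_banach_closed_point (dif_convex hc)
    (dif_compact hK).isClosed hcon
  set α := f (1, 0) with hα
  set β := f (0, 1) with hβ
  have hfx : ∀ x : ℝ × ℝ, f x = x.1 * α + x.2 * β := by
    intro x
    have : x = x.1 • ((1:ℝ), (0:ℝ)) + x.2 • ((0:ℝ), (1:ℝ)) := by ext <;> simp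
    conv_lhs => rw [this]
    rw [map_add, map_smul, map_smul, smul_eq_mul, smul_eq_mul]
  obtain ⟨p0, hp0⟩ := hne
  have h0 : (0 : ℝ × ℝ) ∈ dif K := ⟨p0, hp0, p0, hp0, by simp⟩
  have hs0 : 0 < s := by
    have := hf1 0 h0
    simpa using this
  set r := Real.sqrt (α ^ 2 + β ^ 2) with hr
  have hr2 : r ^ 2 = α ^ 2 + β ^ 2 := Real.sq_sqrt (by positivity)
  have hr0 : 0 ≤ r := Real.sqrt_nonneg _
  have hrpos : 0 < r := by
    rcases hr0.lt_or_eq with h | h
    · exact h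
    · exfalso
      rw [← h] at hr2
      have ha : α = 0 := by nlinarith [sq_nonneg α, sq_nonneg β]
      have hb : β = 0 := by nlinarith [sq_nonneg α, sq_nonneg β]
      rw [hfx, ha, hb] at hf2
      simp at hf2
      linarith
  have hunit : (α / r) ^ 2 + (β / r) ^ 2 = 1 := by
    rw [div_pow, div_pow, ← add_div, hr2, div_self]
    rw [← hr2]; positivity
  have h1 := hm (α / r, β / r) hunit
  obtain ⟨p, hp, q, hq, hpq⟩ := exists_wid hK ⟨p0, hp0⟩ (α / r, β / r)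
  have h2 := hf1 (q - p) ⟨p, hp, q, hq, rfl⟩
  rw [hfx] at h2 hf2
  simp only [Prod.fst_sub, Prod.snd_sub] at h2
  rw [← hpq] at h1
  have h3 : m * r ≤ (q.1 - p.1) * α + (q.2 - p.2) * β := by
    have := mul_le_mul_of_nonneg_right h1 hr0
    have he : ((q.1 - p.1) * (α / r) + (q.2 - p.2) * (β / r)) * r =
      (q.1 - p.1) * α + (q.2 - p.2) * β := by
      field_simp
    simp only at this
    rw [he] at this
    exact this
  have h4 : v.1 * α + v.2 * β ≤ m * r := by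
    apply abs_le_of_sq_le_sq' _ (by positivity) |>.2
    rw [mul_pow, hr2]
    nlinarith [sq_nonneg (v.1 * β - v.2 * α), sq_nonneg α, sq_nonneg β]
  linarith

/-- supporting line -/
theorem support_line {D : Set (ℝ × ℝ)} (hD : Convex ℝ D) (Λ : ℝ) (h1 : ((1:ℝ), (0:ℝ)) ∈ D)
    (h2 : ((-1:ℝ), (0:ℝ)) ∈ D) (hL : ∀ y : ℝ, ((0:ℝ), y) ∈ D → y ≤ Λ) :
    ∃ k : ℝ, ∀ d ∈ D, d.2 ≤ Λ + k * d.1 := by
  -- cross inequality
  have cross : ∀ d ∈ D, ∀ e ∈ D, 0 < d.1 → e.1 < 0 →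
      (d.2 - Λ) / d.1 ≤ (e.2 - Λ) / e.1 := by
    intro d hd e he hd0 he0
    have hden : 0 < d.1 - e.1 := by linarith
    have hin := hD hd he (a := (-e.1) / (d.1 - e.1)) (b := d.1 / (d.1 - e.1))
      (div_nonneg (by linarith) hden.le) (div_nonneg hd0.le hden.le) (by
        rw [← add_div, div_eq_one_iff_eq hden.ne']; ring)
    have hz : (-e.1 / (d.1 - e.1)) • d + (d.1 / (d.1 - e.1)) • e =
        ((0:ℝ), (-e.1 / (d.1 - e.1)) * d.2 + (d.1 / (d.1 - e.1)) * e.2) := by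
      ext
      · simp only [Prod.fst_add, Prod.smul_fst, smul_eq_mul]
        field_simp
        ring
      · simp
    rw [hz] at hin
    have hle := hL _ hin
    have h3 : -e.1 * d.2 + d.1 * e.2 ≤ Λ * (d.1 - e.1) := by
      have h4 : (-e.1 / (d.1 - e.1)) * d.2 + (d.1 / (d.1 - e.1)) * e.2 =
        (-e.1 * d.2 + d.1 * e.2) / (d.1 - e.1) := by ring
      rw [h4, div_le_iff₀ hden] at hle
      exact hle
    rw [div_le_iff₀ hd0]
    have he1 : 0 < -e.1 := by linarith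
    have h5 : (e.2 - Λ) / e.1 * d.1 = (Λ - e.2) * d.1 / (-e.1) := by
      field_simp
      ring
    rw [h5, le_div_iff₀ he1]
    nlinarith
  set A : Set ℝ := (fun d : ℝ × ℝ => (d.2 - Λ) / d.1) '' {d ∈ D | 0 < d.1} with hA
  have hAne : A.Nonempty := ⟨_, ⟨(1, 0), ⟨h1, by norm_num⟩, rfl⟩⟩
  have hAb : BddAbove A := by
    refine ⟨(((-1:ℝ), (0:ℝ)).2 - Λ) / ((-1:ℝ), (0:ℝ)).1, ?_⟩
    rintro _ ⟨d, ⟨hd, hd0⟩, rfl⟩
    exact cross d hd _ h2 hd0 (by norm_num)
  refine ⟨sSup A, ?_⟩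
  intro d hd
  rcases lt_trichotomy d.1 0 with h | h | h
  · have h6 : sSup A ≤ (d.2 - Λ) / d.1 := by
      apply csSup_le hAne
      rintro _ ⟨e, ⟨he, he0⟩, rfl⟩
      exact cross e he d hd he0 h
    rw [le_div_iff_of_neg h] at h6
    linarith
  · have : d = (0, d.2) := by ext <;> simp [h]
    rw [this] at hd
    have := hL _ hd
    rw [h]; linarith
  · have h6 : (d.2 - Λ) / d.1 ≤ sSup A := le_csSup hAb ⟨d, ⟨hd, h⟩, rfl⟩
    rw [div_le_iff₀ h] at h6
    linarith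

/-- rotation (with translation in the first coordinate) -/
noncomputable def rot (u : ℝ × ℝ) (c : ℝ) (y : ℝ × ℝ) : ℝ × ℝ :=
  (u.1 * y.1 + u.2 * y.2 - c, -u.2 * y.1 + u.1 * y.2)

theorem rot_volume (u : ℝ × ℝ) (hu : u.1 ^ 2 + u.2 ^ 2 = 1) (c : ℝ) (K : Set (ℝ × ℝ)) :
    volume (rot u c '' K) = volume K := by
  set L : (ℝ × ℝ) →ₗ[ℝ] (ℝ × ℝ) := Matrix.toLin (Module.Basis.finTwoProd ℝ)
    (Module.Basis.finTwoProd ℝ) !![u.1, u.2; -u.2, u.1] with hL
  have hLa : ∀ x : ℝ × ℝ, L x = (u.1 * x.1 + u.2 * x.2, -u.2 * x.1 + u.1 * x.2) := by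
    intro x
    rw [hL, Matrix.toLin_finTwoProd_apply]
  have hdet : LinearMap.det L = 1 := by
    rw [hL, LinearMap.det_toLin, Matrix.det_fin_two_of]
    linarith
  have h1 : rot u c '' K = (fun x => (-c, 0) + x) '' (L '' K) := by
    rw [Set.image_image]
    apply Set.image_congr
    intro y _
    rw [hLa, rot]
    ext
    · simp only [Prod.fst_add]; ring
    · simp only [Prod.snd_add]; ring
  rw [h1, Set.image_add_left, measure_preimage_add, Measure.addHaar_image_linearMap, hdet]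
  simp

theorem exists_frame (K : Set (ℝ × ℝ)) (hK : Convex ℝ K) (hc : Cov K) (hv : volume K ≠ ⊤) :
    ∃ (K' : Set (ℝ × ℝ)) (m Λ k xs : ℝ), Frame K' m Λ k xs ∧ volume K' = volume K := by
  have hbd := bounded hK hc hv
  set K1 := closure K with hK1
  have cK1 : IsCompact K1 := hbd.isCompact_closure
  have vK1 : Convex ℝ K1 := hK.closure
  have hKK1 : K ⊆ K1 := subset_closure
  have volK1 : volume K1 = volume K := by
    apply le_antisymm
    · have hsub : K1 ⊆ K ∪ frontier K := by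
        intro x hx
        by_cases hxK : x ∈ K
        · exact Or.inl hxK
        · exact Or.inr ⟨hx, fun h => hxK (interior_subset h)⟩
      calc volume K1 ≤ volume (K ∪ frontier K) := measure_mono hsub
        _ ≤ volume K + volume (frontier K) := measure_union_le _ _
        _ = volume K := by rw [hK.addHaar_frontier (volume : Measure (ℝ × ℝ)), add_zero]
    · exact measure_mono hKK1
  have hne : K1.Nonempty := by
    obtain ⟨v, hvv⟩ := hc {(0, 0), (1, 0)} (by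
      intro p hp q hq
      simp only [mem_insert_iff, mem_singleton_iff] at hp hq
      rcases hp with rfl | rfl <;> rcases hq with rfl | rfl <;>
        simp only [sq2] <;> norm_num) (by
      refine ⟨(0, 0), by simp, (1, 0), by simp, ?_⟩
      simp [sq2])
    exact ⟨_, hKK1 (hvv (0, 0) (by simp))⟩
  obtain ⟨u, hu, hmin⟩ := exists_min_wid cK1
  set m := wid K1 u with hm
  obtain ⟨p0, hp0, q0, hq0, hpq0⟩ := exists_wid cK1 hne u
  have hm0 : 0 ≤ m := by
    have := le_wid cK1 u hp0 hp0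
    simpa using this
  set c0 := p0.1 * u.1 + p0.2 * u.2 with hc0
  set K' := rot u c0 '' K1 with hK'
  -- rotation facts
  have hinv : ∀ v : ℝ × ℝ, ∀ y : ℝ × ℝ,
      rot u c0 ((u.1 * v.1 - u.2 * v.2, u.2 * v.1 + u.1 * v.2) + y) = v + rot u c0 y := by
    intro v y
    simp only [rot, Prod.fst_add, Prod.snd_add]
    ext
    · simp only [Prod.fst_add]
      linear_combination v.1 * hu
    · simp only [Prod.snd_add]
      linear_combination v.2 * hu
  have cK' : IsCompact K' := by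
    apply cK1.image
    unfold rot
    fun_prop
  have vK' : Convex ℝ K' := by
    rintro _ ⟨x, hx, rfl⟩ _ ⟨y, hy, rfl⟩ a b ha hb hab
    refine ⟨a • x + b • y, vK1 hx hy ha hb hab, ?_⟩
    simp only [rot]
    ext
    · simp only [Prod.fst_add, Prod.smul_fst, Prod.snd_add, Prod.smul_snd, smul_eq_mul]
      linear_combination (-c0) * (-hab)
    · simp only [Prod.fst_add, Prod.smul_fst, Prod.snd_add, Prod.smul_snd, smul_eq_mul]
      ring
  have covK' : Cov K' := by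
    intro S hS1 hS2
    set J : ℝ × ℝ → ℝ × ℝ := fun v => (u.1 * v.1 - u.2 * v.2, u.2 * v.1 + u.1 * v.2) with hJ
    have hsq : ∀ p q : ℝ × ℝ, sq2 (J p) (J q) = sq2 p q := by
      intro p q
      simp only [sq2, hJ]
      linear_combination ((p.1 - q.1) ^ 2 + (p.2 - q.2) ^ 2) * hu
    obtain ⟨v, hvv⟩ := hc (J '' S) (by
      rintro _ ⟨p, hp, rfl⟩ _ ⟨q, hq, rfl⟩
      rw [hsq]; exact hS1 p hp q hq) (by
      obtain ⟨p, hp, q, hq, h⟩ := hS2
      exact ⟨_, ⟨p, hp, rfl⟩, _, ⟨q, hq, rfl⟩, by rw [hsq]; exact h⟩)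
    refine ⟨rot u c0 v, ?_⟩
    intro p hp
    rw [← hinv]
    exact ⟨_, hKK1 (hvv _ ⟨p, hp, rfl⟩), rfl⟩
  have proj : ∀ p ∈ K', 0 ≤ p.1 ∧ p.1 ≤ m := by
    rintro _ ⟨y, hy, rfl⟩
    have h1 := le_wid cK1 u hp0 hy
    have h2 := le_wid cK1 u hy hq0
    simp only [rot]
    constructor
    · rw [← hpq0] at h2
      linarith
    · linarith
  have ball : ∀ v : ℝ × ℝ, v.1 ^ 2 + v.2 ^ 2 ≤ m ^ 2 → ∃ p ∈ K', ∃ q ∈ K', q - p = v := by
    intro v hv2
    obtain ⟨p, hp, q, hq, hpq⟩ := ball_dif cK1 vK1 hne m hmin hm0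
      (u.1 * v.1 - u.2 * v.2, u.2 * v.1 + u.1 * v.2) (by
        have : (u.1 * v.1 - u.2 * v.2) ^ 2 + (u.2 * v.1 + u.1 * v.2) ^ 2 = v.1 ^ 2 + v.2 ^ 2 := by
          linear_combination (v.1 ^ 2 + v.2 ^ 2) * hu
        simp only
        rw [this]; exact hv2)
    refine ⟨rot u c0 p, ⟨p, hp, rfl⟩, rot u c0 q, ⟨q, hq, rfl⟩, ?_⟩
    have hqe : q = (u.1 * v.1 - u.2 * v.2, u.2 * v.1 + u.1 * v.2) + p := by
      rw [← hpq]; abel
    rw [hqe, hinv]
    abel
  have hdifK' : ∀ v : ℝ × ℝ, v.1 ^ 2 + v.2 ^ 2 = 1 → v ∈ dif K' := by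
    intro v hv1
    obtain ⟨t, ht⟩ := covK' {(0, 0), v} (by
      intro p hp q hq
      simp only [mem_insert_iff, mem_singleton_iff] at hp hq
      rcases hp with rfl | rfl <;> rcases hq with rfl | rfl <;>
        simp only [sq2] <;> nlinarith) (by
      refine ⟨(0, 0), by simp, v, by simp, ?_⟩
      simp only [sq2]; linarith)
    refine ⟨_, ht (0, 0) (by simp), _, ht v (by simp), ?_⟩
    ext <;> simp
  -- the vertical chord
  have hchord : ∃ Λ : ℝ, ((0:ℝ), Λ) ∈ dif K' ∧ ∀ y : ℝ, ((0:ℝ), y) ∈ dif K' → y ≤ Λ := by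
    have hcl : IsCompact (dif K' ∩ {v : ℝ × ℝ | v.1 = 0}) :=
      (dif_compact cK').inter_right (isClosed_eq continuous_fst continuous_const)
    have hne2 : (dif K' ∩ {v : ℝ × ℝ | v.1 = 0}).Nonempty :=
      ⟨(0, 1), hdifK' _ (by norm_num), rfl⟩
    obtain ⟨z, hz, hmax⟩ := hcl.exists_isMaxOn hne2 (f := fun v : ℝ × ℝ => v.2)
      continuous_snd.continuousOn
    refine ⟨z.2, ?_, ?_⟩
    · have h1 : z = (0, z.2) := by
        ext
        · exact hz.2
        · rfl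
      rw [← h1]; exact hz.1
    · intro y hy
      exact hmax (a := ((0:ℝ), y)) ⟨hy, rfl⟩
  obtain ⟨Λ, hΛ1, hΛ2⟩ := hchord
  obtain ⟨k, hk⟩ := support_line (dif_convex vK') Λ (hdifK' _ (by norm_num)) (hdifK' _ (by norm_num)) hΛ2
  obtain ⟨a1, ha1, a2, ha2, ha12⟩ := hΛ1
  have hx12 : a2.1 = a1.1 := by
    have := congrArg Prod.fst ha12
    simp only [Prod.fst_sub] at this
    linarith
  have hy12 : a2.2 - a1.2 = Λ := by
    have := congrArg Prod.snd ha12
    simpa using this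
  refine ⟨K', m, Λ, k, a1.1, ⟨cK', vK', covK', proj, ?_, ball, ?_, ?_⟩, ?_⟩
  · obtain ⟨p, hp, q, hq, hpq⟩ := ball (m, 0) (by simp)
    have h1 := proj p hp
    have h2 := proj q hq
    have h3 : q.1 - p.1 = m := by
      have := congrArg Prod.fst hpq
      simpa using this
    have h4 : q.2 - p.2 = 0 := by
      have := congrArg Prod.snd hpq
      simpa using this
    refine ⟨p.2, ?_, ?_⟩
    · have : p = (0, p.2) := by
        ext
        · show p.1 = 0
          linarith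
        · rfl
      rw [← this]; exact hp
    · have : q = (m, p.2) := by
        ext
        · show q.1 = m
          linarith
        · show q.2 = p.2
          linarith
      rw [← this]; exact hq
  · refine ⟨a1.2, a2.2, ha1, ?_, hy12⟩
    rw [← hx12]; exact ha2
  · intro p hp q hq
    exact hk (q - p) ⟨p, hp, q, hq, rfl⟩
  · rw [hK', rot_volume u hu, volK1]

end Pool.Agent.V7H24.Cov
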