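import Pool.Agent.V7H24.Cov.FrameEx

set_option autoImplicit false
open MeasureTheory Set Pool.Agent.V7H8.Cover

namespace Pool.Agent.V7H24.Cov

theorem frame_one_le {K : Set (ℝ × ℝ)} {m Λ k xs : ℝ} (h : Frame K m Λ k xs) : 1 ≤ m := by
  obtain ⟨v, hvv⟩ := h.cov {(0, 0), (1, 0)} (by
    intro p hp q hq
    simp only [mem_insert_iff, mem_singleton_iff] at hp hq
    rcases hp with rfl | rfl <;> rcases hq with rfl | rfl <;>
      simp only [sq2] <;> norm_num) (by
    refine ⟨(0, 0), by simp, (1, 0), by simp, ?_⟩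
    simp [sq2])
  have h1 := (h.proj _ (hvv (0, 0) (by simp))).1
  have h2 := (h.proj _ (hvv (1, 0) (by simp))).2
  simp only [Prod.fst_add, zero_add] at h1 h2
  linarith

/-- simple facts on frames -/
theorem frame_facts {K : Set (ℝ × ℝ)} {m Λ k xs : ℝ} (h : Frame K m Λ k xs) :
    1 ≤ m ∧ 0 ≤ Λ ∧ m ^ 2 * (1 + k ^ 2) ≤ Λ ^ 2 := by
  have hm := frame_one_le h
  refine ⟨hm, ?_, ?_⟩
  · obtain ⟨y1, y2, h1, h2, h3⟩ := h.chord
    have := h.line _ h1 _ h1
    simpa using this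
  · set r := Real.sqrt (1 + k ^ 2) with hr
    have hr2 : r ^ 2 = 1 + k ^ 2 := Real.sq_sqrt (by positivity)
    have hr0 : 0 < r := Real.sqrt_pos.mpr (by positivity)
    obtain ⟨p, hp, q, hq, hpq⟩ := h.ball (-(m * k / r), m / r) (by
      have : (-(m * k / r)) ^ 2 + (m / r) ^ 2 = m ^ 2 * (1 + k ^ 2) / r ^ 2 := by
        field_simp
        ring
      simp only
      rw [this, hr2, mul_div_assoc, div_self (by positivity), mul_one])
    have hl := h.line p hp q hq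
    have h1 : q.1 - p.1 = -(m * k / r) := by
      have := congrArg Prod.fst hpq
      simpa using this
    have h2 : q.2 - p.2 = m / r := by
      have := congrArg Prod.snd hpq
      simpa using this
    rw [h1, h2] at hl
    have h3 : m / r + k * (m * k / r) = m * r := by
      have : m / r + k * (m * k / r) = m * (1 + k ^ 2) / r := by ring
      rw [this, ← hr2]
      field_simp
    have h4 : m * r ≤ Λ := by linarith
    have h5 : (m * r) ^ 2 ≤ Λ ^ 2 := by
      apply pow_le_pow_left₀ (by positivity) h4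
    rw [mul_pow, hr2] at h5
    exact h5

/-- extent of `K` across `w` from the ball condition -/
theorem ext_ball {K : Set (ℝ × ℝ)} {m : ℝ}
    (hb : ∀ v : ℝ × ℝ, v.1 ^ 2 + v.2 ^ 2 ≤ m ^ 2 → ∃ p ∈ K, ∃ q ∈ K, q - p = v) (w : ℝ × ℝ) :
    ∃ p ∈ K, ∃ q ∈ K, m * Real.sqrt (w.1 ^ 2 + w.2 ^ 2) ≤
      w.1 * (q.2 - p.2) - w.2 * (q.1 - p.1) := by
  set r := Real.sqrt (w.1 ^ 2 + w.2 ^ 2) with hr
  have hr2 : r ^ 2 = w.1 ^ 2 + w.2 ^ 2 := Real.sq_sqrt (by positivity)
  have hr0 : 0 ≤ r := Real.sqrt_nonneg _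
  rcases hr0.eq_or_lt with h0 | hpos
  · obtain ⟨p, hp, q, hq, hpq⟩ := hb (0, 0) (by simp; positivity)
    refine ⟨p, hp, q, hq, ?_⟩
    rw [← h0] at hr2
    have h1 : w.1 = 0 := by nlinarith [sq_nonneg w.1, sq_nonneg w.2]
    have h2 : w.2 = 0 := by nlinarith [sq_nonneg w.1, sq_nonneg w.2]
    rw [← h0, h1, h2]
    simp
  · obtain ⟨p, hp, q, hq, hpq⟩ := hb (-(m * w.2 / r), m * w.1 / r) (by
      have : (-(m * w.2 / r)) ^ 2 + (m * w.1 / r) ^ 2 = m ^ 2 * (w.1 ^ 2 + w.2 ^ 2) / r ^ 2 := by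
        field_simp
        ring
      simp only
      rw [this, hr2, mul_div_assoc, div_self (by rw [← hr2]; positivity), mul_one])
    refine ⟨p, hp, q, hq, ?_⟩
    have h1 : q.1 - p.1 = -(m * w.2 / r) := by
      have := congrArg Prod.fst hpq
      simpa using this
    have h2 : q.2 - p.2 = m * w.1 / r := by
      have := congrArg Prod.snd hpq
      simpa using this
    rw [h1, h2]
    have h3 : w.1 * (m * w.1 / r) - w.2 * -(m * w.2 / r) = m * (w.1 ^ 2 + w.2 ^ 2) / r := by ring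
    rw [h3, ← hr2]
    apply le_of_eq
    field_simp

theorem norm_add_norm (x e : ℝ) :
    Real.sqrt (4 * x ^ 2 + 1) ≤ Real.sqrt (x ^ 2 + (1/2 + e) ^ 2) + Real.sqrt (x ^ 2 + (1/2 - e) ^ 2) := by
  set a := Real.sqrt (x ^ 2 + (1/2 + e) ^ 2) with ha
  set b := Real.sqrt (x ^ 2 + (1/2 - e) ^ 2) with hb
  have ha2 : a ^ 2 = x ^ 2 + (1/2 + e) ^ 2 := Real.sq_sqrt (by positivity)
  have hb2 : b ^ 2 = x ^ 2 + (1/2 - e) ^ 2 := Real.sq_sqrt (by positivity)
  have ha0 : 0 ≤ a := Real.sqrt_nonneg _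
  have hb0 : 0 ≤ b := Real.sqrt_nonneg _
  rw [Real.sqrt_le_left (by positivity)]
  have hab : x ^ 2 + (1/2 + e) * (1/2 - e) ≤ a * b := by
    apply abs_le_of_sq_le_sq' _ (by positivity) |>.2
    rw [mul_pow, ha2, hb2]
    have := sq_nonneg (x * (1/2 - e) - x * (1/2 + e))
    linarith only [this]
  linarith only [hab, ha2, hb2]

theorem tri1 (s : ℝ) (hs2 : s ^ 2 = 3) :
    ∀ p ∈ ({(s/3, 0), (-(s/6), 1/2), (-(s/6), -(1/2))} : Set (ℝ × ℝ)),
      ∀ q ∈ ({(s/3, 0), (-(s/6), 1/2), (-(s/6), -(1/2))} : Set (ℝ × ℝ)), sq2 p q ≤ 1 := by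
  intro p hp q hq
  simp only [mem_insert_iff, mem_singleton_iff] at hp hq
  rcases hp with rfl | rfl | rfl <;> rcases hq with rfl | rfl | rfl <;>
    simp only [sq2] <;> linarith only [hs2]

theorem tri2 (s : ℝ) (hs2 : s ^ 2 = 3) :
    ∀ p ∈ ({(-(s/3), 0), (s/6, -(1/2)), (s/6, 1/2)} : Set (ℝ × ℝ)),
      ∀ q ∈ ({(-(s/3), 0), (s/6, -(1/2)), (s/6, 1/2)} : Set (ℝ × ℝ)), sq2 p q ≤ 1 := by
  intro p hp q hq
  simp only [mem_insert_iff, mem_singleton_iff] at hp hq
  rcases hp with rfl | rfl | rfl <;> rcases hq with rfl | rfl | rfl <;>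
    simp only [sq2] <;> linarith only [hs2]

theorem far_bound (s x y : ℝ) (hs2 : s ^ 2 = 3) (hs0 : 0 ≤ s)
    (t1 : s / 2 ≤ -x / 2 + s * y / 2) : 3 / 4 ≤ x ^ 2 + y ^ 2 := by
  have t2 : (s / 2) ^ 2 ≤ (-x / 2 + s * y / 2) ^ 2 := pow_le_pow_left₀ (by positivity) t1 2
  have t3 : x ^ 2 + y ^ 2 = (-x / 2 + s * y / 2) ^ 2 + (s * x / 2 + y / 2) ^ 2 := by
    linear_combination (-(x ^ 2 + y ^ 2) / 4) * hs2
  have t4 := sq_nonneg (s * x / 2 + y / 2)
  have t5 : (s / 2) ^ 2 = 3 / 4 := by rw [div_pow, hs2]; norm_num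
  linarith only [t2, t3, t4, t5]

theorem far_one (s d e : ℝ) (hs2 : s ^ 2 = 3) (l1 : 1/3 - 2 * d * s / 3 < 0) :
    3 / 4 ≤ (s / 3 + d) ^ 2 + e ^ 2 := by
  have h1 : 1 / 2 ≤ s * d := by linarith only [l1]
  have h2 : (1 / 2) ^ 2 ≤ (s * d) ^ 2 := pow_le_pow_left₀ (by norm_num) h1 2
  have h3 : (s * d) ^ 2 = 3 * d ^ 2 := by rw [mul_pow, hs2]
  have h4 := sq_nonneg e
  have h5 : (s / 3 + d) ^ 2 = s ^ 2 / 9 + 2 / 3 * (s * d) + d ^ 2 := by ring
  rw [h5, hs2]
  linarith only [h1, h2, h3, h4]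

theorem h5_aux (m M R x : ℝ) (hm0 : 0 ≤ m) (hR2 : R ^ 2 = 4 * m ^ 2 - M ^ 2) :
    M * x + R / 2 ≤ m * Real.sqrt (4 * x ^ 2 + 1) := by
  apply abs_le_of_sq_le_sq' _ (by positivity) |>.2
  rw [mul_pow, Real.sq_sqrt (by positivity)]
  have h1 := sq_nonneg (R * x - M / 2)
  have h2 : m ^ 2 = (M ^ 2 + R ^ 2) / 4 := by linarith only [hR2]
  rw [h2]
  linarith only [h1]

/-- parallelogram case -/
theorem par_bound {K : Set (ℝ × ℝ)} {m : ℝ} (hc : IsCompact K) (hK : Convex ℝ K) (hm : 0 ≤ m)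
    (hb : ∀ v : ℝ × ℝ, v.1 ^ 2 + v.2 ^ 2 ≤ m ^ 2 → ∃ p ∈ K, ∃ q ∈ K, q - p = v)
    (a w1 w2 : ℝ × ℝ) (h00 : a ∈ K) (h10 : a + w1 ∈ K) (h01 : a + w2 ∈ K) (h11 : a + w1 + w2 ∈ K)
    (hw1 : w1.1 ^ 2 + w1.2 ^ 2 = 1) (hw2 : 3 / 4 ≤ w2.1 ^ 2 + w2.2 ^ 2) :
    m * (1 + Real.sqrt 3 / 2) / 2 ≤ (volume K).toReal := by
  have key := zono_area hc hK a w1 w2 0 ?_ m (m * (Real.sqrt 3 / 2)) 0 hm (by positivity) (le_refl _)
    ?_ ?_ ?_
  · linarith
  · intro α hα β hβ γ hγ
    rw [smul_zero, add_zero]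
    have e0 := hK h00 h10 (show (0:ℝ) ≤ 1 - α by linarith [hα.2]) hα.1 (by ring)
    have e1 := hK h01 h11 (show (0:ℝ) ≤ 1 - α by linarith [hα.2]) hα.1 (by ring)
    have e2 := hK e0 e1 (show (0:ℝ) ≤ 1 - β by linarith [hβ.2]) hβ.1 (by ring)
    convert e2 using 1
    ext
    · simp only [Prod.fst_add, Prod.smul_fst, smul_eq_mul]; ring
    · simp only [Prod.snd_add, Prod.smul_snd, smul_eq_mul]; ring
  · obtain ⟨p, hp, q, hq, hpq⟩ := ext_ball hb w1
    refine ⟨p, hp, q, hq, ?_⟩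
    rw [hw1, Real.sqrt_one, mul_one] at hpq
    exact hpq
  · obtain ⟨p, hp, q, hq, hpq⟩ := ext_ball hb w2
    refine ⟨p, hp, q, hq, ?_⟩
    refine le_trans ?_ hpq
    apply mul_le_mul_of_nonneg_left _ hm
    apply Real.le_sqrt_of_sq_le
    rw [div_pow, Real.sq_sqrt (by norm_num)]
    linarith
  · exact ⟨a, h00, a, h00, by simp⟩

/-- module G -/
theorem frame_hex {K : Set (ℝ × ℝ)} {m Λ k xs : ℝ} (h : Frame K m Λ k xs) (M : ℝ)
    (hM0 : 0 ≤ M) (hM : M ≤ Λ) (hM2 : M ≤ 2 * m) (A : ℝ)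
    (hA1 : A ≤ m * (1 + Real.sqrt 3 / 2) / 2)
    (hA2 : A ≤ (Real.sqrt 3 * M + Real.sqrt (4 * m ^ 2 - M ^ 2)) / 4) :
    A ≤ (volume K).toReal := by
  obtain ⟨hm1, hΛ0, -⟩ := frame_facts h
  set s := Real.sqrt 3 with hs
  have hs2 : s ^ 2 = 3 := Real.sq_sqrt (by norm_num)
  have hs0 : 0 < s := Real.sqrt_pos.mpr (by norm_num)
  -- the triangle with vertices c1 = (s/3, 0), c2 = (-s/6, 1/2), c3 = (-s/6, -1/2)
  obtain ⟨v, hv⟩ := h.cov {(s/3, 0), (-(s/6), 1/2), (-(s/6), -(1/2))} (tri1 s hs2) (by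
    refine ⟨(-(s/6), 1/2), by simp, (-(s/6), -(1/2)), by simp, ?_⟩
    simp only [sq2]; norm_num)
  obtain ⟨v', hv'⟩ := h.cov {(-(s/3), 0), (s/6, -(1/2)), (s/6, 1/2)} (tri2 s hs2) (by
    refine ⟨(s/6, 1/2), by simp, (s/6, -(1/2)), by simp, ?_⟩
    simp only [sq2]; norm_num)
  have p1 := hv (s/3, 0) (by simp)
  have p2 := hv (-(s/6), 1/2) (by simp)
  have p3 := hv (-(s/6), -(1/2)) (by simp)
  have q1 := hv' (-(s/3), 0) (by simp)
  have q2 := hv' (s/6, -(1/2)) (by simp)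
  have q3 := hv' (s/6, 1/2) (by simp)
  -- displacement
  set d : ℝ := v'.1 - v.1 with hd
  set e : ℝ := v'.2 - v.2 with he
  have hv'e : v' = (v.1 + d, v.2 + e) := by
    ext
    · simp [hd]
    · simp [he]
  rw [hv'e] at q1 q2 q3
  have hm0 : 0 ≤ m := by linarith
  by_cases l1 : 1/3 - 2 * d * s / 3 < 0
  · -- side c2 c3, opposite vertex c1
    refine hA1.trans (par_bound h.cpt h.cvx hm0 h.ball ((-(s/6), 1/2) + v) (0, -1) (s/3 + d, e) p2
      ?_ ?_ ?_ (by norm_num) ?_)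
    · convert p3 using 1
      ext
      · simp only [Prod.fst_add]; ring
      · simp only [Prod.snd_add]; ring
    · convert q3 using 1
      ext
      · simp only [Prod.fst_add]; ring
      · simp only [Prod.snd_add]; ring
    · convert q2 using 1
      ext
      · simp only [Prod.fst_add]; ring
      · simp only [Prod.snd_add]; ring
    · exact far_one s d e hs2 l1
  push Not at l1
  by_cases l2 : 1/3 + d * s / 3 - e < 0
  · -- side c1 c3, opposite vertex c2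
    refine hA1.trans (par_bound h.cpt h.cvx hm0 h.ball ((s/3, 0) + v) (-(s/2), -(1/2))
      (-(s/6) + d, 1/2 + e) p1 ?_ ?_ ?_ (by simp only; linarith only [hs2]) ?_)
    · convert p3 using 1
      ext
      · simp only [Prod.fst_add]; ring
      · simp only [Prod.snd_add]; ring
    · convert q3 using 1
      ext
      · simp only [Prod.fst_add]; ring
      · simp only [Prod.snd_add]; ring
    · convert q1 using 1
      ext
      · simp only [Prod.fst_add]; ring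
      · simp only [Prod.snd_add]; ring
    · apply far_bound s _ _ hs2 hs0.le
      have h4 : s * (1/3 + d * s / 3 - e) ≤ 0 := mul_nonpos_of_nonneg_of_nonpos hs0.le l2.le
      have h5 : s * (1/3 + d * s / 3 - e) = s / 3 + d - s * e := by
        linear_combination (d / 3) * hs2
      rw [h5] at h4
      linarith only [h4]
  push Not at l2
  by_cases l3 : 1/3 + d * s / 3 + e < 0
  · refine hA1.trans (par_bound h.cpt h.cvx hm0 h.ball ((s/3, 0) + v) (-(s/2), 1/2)
      (-(s/6) + d, -(1/2) + e) p1 ?_ ?_ ?_ (by simp only; linarith only [hs2]) ?_)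
    · convert p2 using 1
      ext
      · simp only [Prod.fst_add]; ring
      · simp only [Prod.snd_add]; ring
    · convert q2 using 1
      ext
      · simp only [Prod.fst_add]; ring
      · simp only [Prod.snd_add]; ring
    · convert q1 using 1
      ext
      · simp only [Prod.fst_add]; ring
      · simp only [Prod.snd_add]; ring
    · rw [show (-(1/2) + e) ^ 2 = (1/2 - e) ^ 2 by ring]
      apply far_bound s _ _ hs2 hs0.le
      have h4 : s * (1/3 + d * s / 3 + e) ≤ 0 := mul_nonpos_of_nonneg_of_nonpos hs0.le l3.le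
      have h5 : s * (1/3 + d * s / 3 + e) = s / 3 + d + s * e := by
        linear_combination (d / 3) * hs2
      rw [h5] at h4
      linarith only [h4]
  push Not at l3
  -- hexagon case
  have n1 : v - (d, e) ∈ K := by
    have e1 := h.cvx.sum_mem (t := (Finset.univ : Finset (Fin 3)))
      (w := ![1/3 - 2 * d * s / 3, 1/3 + d * s / 3 - e, 1/3 + d * s / 3 + e])
      (z := ![(s/3, 0) + v, (-(s/6), 1/2) + v, (-(s/6), -(1/2)) + v])
      (by intro i _; fin_cases i <;> assumption)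
      (by rw [Fin.sum_univ_three]; simp; ring)
      (by intro i _; fin_cases i <;> assumption)
    rw [Fin.sum_univ_three] at e1
    convert e1 using 1
    ext
    · simp
      linear_combination (d / 3) * hs2
    · simp
      ring
  have n2 : v + (2 * d, 2 * e) ∈ K := by
    have e1 := h.cvx.sum_mem (t := (Finset.univ : Finset (Fin 3)))
      (w := ![1/3 - 2 * d * s / 3, 1/3 + d * s / 3 - e, 1/3 + d * s / 3 + e])
      (z := ![(-(s/3), 0) + (v.1 + d, v.2 + e), (s/6, -(1/2)) + (v.1 + d, v.2 + e),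
        (s/6, 1/2) + (v.1 + d, v.2 + e)])
      (by intro i _; fin_cases i <;> assumption)
      (by rw [Fin.sum_univ_three]; simp; ring)
      (by intro i _; fin_cases i <;> assumption)
    rw [Fin.sum_univ_three] at e1
    convert e1 using 1
    ext
    · simp
      linear_combination (- d / 3) * hs2
    · simp
      ring
  have hsd : 0 ≤ s / 3 + d := by
    have h4 : 0 ≤ s * (s / 3 + d) := by
      have h5 : s * (s / 3 + d) = 1 + d * s := by linear_combination (1 / 3) * hs2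
      rw [h5]
      linarith only [l2, l3]
    exact nonneg_of_mul_nonneg_right h4 hs0
  set r1 := Real.sqrt ((-(s/6) + d) ^ 2 + (1/2 + e) ^ 2) with hr1
  set r3 := Real.sqrt ((-(s/6) + d) ^ 2 + (-(1/2) + e) ^ 2) with hr3
  have key := zono_area h.cpt h.cvx ((s/3, 0) + v) (-(s/6) + d, 1/2 + e) (-(s/3 + d), -e)
    (-(s/6) + d, -(1/2) + e) ?_ (m * r1) (M * (s/3 + d)) (m * r3) (by positivity) (by positivity)
    (by positivity) ?_ ?_ ?_
  · refine hA2.trans (le_trans ?_ key)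
    set R := Real.sqrt (4 * m ^ 2 - M ^ 2) with hR
    have hR2 : R ^ 2 = 4 * m ^ 2 - M ^ 2 := Real.sq_sqrt (by
      have := pow_le_pow_left₀ hM0 hM2 2
      linarith only [this])
    have hR0 : 0 ≤ R := Real.sqrt_nonneg _
    set x := s/6 - d with hx
    have hn := norm_add_norm x e
    have e1 : Real.sqrt (x ^ 2 + (1/2 + e) ^ 2) = r1 := by
      rw [hr1]; congr 1; rw [hx]; ring
    have e2 : Real.sqrt (x ^ 2 + (1/2 - e) ^ 2) = r3 := by
      rw [hr3]; congr 1; rw [hx]; ring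
    rw [e1, e2] at hn
    have h5 : M * x + R / 2 ≤ m * Real.sqrt (4 * x ^ 2 + 1) := h5_aux m M R x hm0 hR2
    have h6 : m * Real.sqrt (4 * x ^ 2 + 1) ≤ m * (r1 + r3) := mul_le_mul_of_nonneg_left hn hm0
    have h7 : s / 3 + d = s / 2 - x := by rw [hx]; ring
    rw [h7]
    linarith only [h5, h6]
  · intro α hα β hβ γ hγ
    -- eight vertices
    have v000 := p1
    have v100 := q3
    have v010 := n1
    have v110 := p2
    have v001 := q2
    have v101 := n2
    have v011 := p3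
    have v111 := q1
    have a0 : (0:ℝ) ≤ 1 - α := by linarith [hα.2]
    have b0 : (0:ℝ) ≤ 1 - β := by linarith [hβ.2]
    have c0 : (0:ℝ) ≤ 1 - γ := by linarith [hγ.2]
    have f1 := h.cvx v000 v100 a0 hα.1 (by ring)
    have f2 := h.cvx v010 v110 a0 hα.1 (by ring)
    have f3 := h.cvx v001 v101 a0 hα.1 (by ring)
    have f4 := h.cvx v011 v111 a0 hα.1 (by ring)
    have g1 := h.cvx f1 f2 b0 hβ.1 (by ring)
    have g2 := h.cvx f3 f4 b0 hβ.1 (by ring)
    have g3 := h.cvx g1 g2 c0 hγ.1 (by ring)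
    convert g3 using 1
    ext
    · simp only [Prod.fst_add, Prod.smul_fst, smul_eq_mul, Prod.fst_sub]; ring
    · simp only [Prod.snd_add, Prod.smul_snd, smul_eq_mul, Prod.snd_sub]; ring
  · obtain ⟨p, hp, q, hq, hpq⟩ := ext_ball h.ball (-(s/6) + d, 1/2 + e)
    exact ⟨p, hp, q, hq, hpq⟩
  · obtain ⟨y1, y2, hy1, hy2, hy⟩ := h.chord
    rcases hΛ0.eq_or_lt with h0 | hpos
    · have hM00 : M = 0 := by linarith
      refine ⟨_, hy1, _, hy1, ?_⟩
      rw [hM00]; simp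
    · have hmid := h.cvx hy1 hy2 (show (0:ℝ) ≤ 1 - M / Λ by
        rw [sub_nonneg, div_le_one hpos]; exact hM) (show (0:ℝ) ≤ M / Λ by positivity) (by ring)
      have he1 : (1 - M / Λ) • (xs, y1) + (M / Λ) • (xs, y2) = (xs, y1 + M) := by
        ext
        · simp; ring
        · simp
          have : y2 = y1 + Λ := by linarith
          rw [this]
          field_simp
          ring
      rw [he1] at hmid
      refine ⟨_, hmid, _, hy1, ?_⟩
      simp only
      linarith only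
  · obtain ⟨p, hp, q, hq, hpq⟩ := ext_ball h.ball (-(s/6) + d, -(1/2) + e)
    exact ⟨p, hp, q, hq, hpq⟩

end Pool.Agent.V7H24.Cov
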