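import Mathlib

set_option autoImplicit false
open MeasureTheory Set
open scoped Pointwise

namespace Pool.Agent.V7H24.Cov

/-- union of the translates of `X` by `s • w`, `s` in `[0,1]` -/
def sweep (X : Set (ℝ × ℝ)) (w : ℝ × ℝ) : Set (ℝ × ℝ) :=
  (fun z : ℝ × (ℝ × ℝ) => z.2 + z.1 • w) '' (Icc (0:ℝ) 1 ×ˢ X)

theorem mem_sweep {X : Set (ℝ × ℝ)} {w y : ℝ × ℝ} :
    y ∈ sweep X w ↔ ∃ s ∈ Icc (0:ℝ) 1, ∃ x ∈ X, x + s • w = y := by
  constructor
  · rintro ⟨⟨s, x⟩, ⟨hs, hx⟩, rfl⟩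
    exact ⟨s, hs, x, hx, rfl⟩
  · rintro ⟨s, hs, x, hx, rfl⟩
    exact ⟨(s, x), ⟨hs, hx⟩, rfl⟩

theorem sweep_compact {X : Set (ℝ × ℝ)} (hX : IsCompact X) (w : ℝ × ℝ) :
    IsCompact (sweep X w) := by
  unfold sweep
  apply (isCompact_Icc.prod hX).image
  fun_prop

theorem sweep_convex {X : Set (ℝ × ℝ)} (hX : Convex ℝ X) (w : ℝ × ℝ) :
    Convex ℝ (sweep X w) := by
  rintro y hy z hz a b ha hb hab
  rw [mem_sweep] at hy hz ⊢
  obtain ⟨s, hs, x, hx, rfl⟩ := hy
  obtain ⟨s', hs', x', hx', rfl⟩ := hz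
  refine ⟨a * s + b * s', ?_, a • x + b • x', hX hx hx' ha hb hab, ?_⟩
  · have := (convex_Icc (0:ℝ) 1) hs hs' ha hb hab
    simpa using this
  · simp only [smul_add, add_smul, smul_smul]
    abel

theorem subset_sweep (X : Set (ℝ × ℝ)) (w : ℝ × ℝ) : X ⊆ sweep X w := by
  intro x hx
  rw [mem_sweep]
  exact ⟨0, by simp, x, hx, by simp⟩

/-- slice estimate -/
theorem slice_bound {A : Set ℝ} (hA : IsCompact A) (hne : A.Nonempty) (B : Set ℝ)
    (hB : ∀ s ∈ Icc (0:ℝ) 1, ∀ x ∈ A, x + s ∈ B) :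
    volume A + 1 ≤ volume B := by
  have hmax := hA.sSup_mem hne
  set M := sSup A with hM
  have hsub : A ∪ Ioc M (M + 1) ⊆ B := by
    rintro x (hx | hx)
    · have := hB 0 (by simp) x hx
      simpa using this
    · have := hB (x - M) ⟨by linarith [hx.1], by linarith [hx.2]⟩ M hmax
      simpa using this
  have hdisj : Disjoint A (Ioc M (M + 1)) := by
    rw [Set.disjoint_left]
    intro x hx hx'
    have : x ≤ M := le_csSup hA.bddAbove hx
    exact absurd hx'.1 (not_lt.mpr this)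
  calc volume A + 1 = volume A + volume (Ioc M (M + 1)) := by
        rw [Real.volume_Ioc]; simp
    _ = volume (A ∪ Ioc M (M + 1)) := (measure_union hdisj measurableSet_Ioc).symm
    _ ≤ volume B := measure_mono hsub

/-- unit version of the sweep estimate -/
theorem sweep_unit {Y Y' : Set (ℝ × ℝ)} (hY : IsCompact Y) (hY' : MeasurableSet Y')
    (hsub : Y ⊆ Y')
    (h01 : ∀ t ∈ Icc (0:ℝ) 1, ∃ s : ℝ, (t, s) ∈ Y)
    (hsw : ∀ y ∈ Y, ∀ s ∈ Icc (0:ℝ) 1, (y.1, y.2 + s) ∈ Y') :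
    volume Y + 1 ≤ volume Y' := by
  rw [Measure.volume_eq_prod, Measure.prod_apply hY.measurableSet, Measure.prod_apply hY']
  have h1 : (1 : ENNReal) = ∫⁻ x : ℝ, (Icc (0:ℝ) 1).indicator (fun _ => 1) x := by
    rw [lintegral_indicator measurableSet_Icc]
    simp
  rw [h1, ← lintegral_add_right]
  · apply lintegral_mono
    intro t
    simp only
    by_cases ht : t ∈ Icc (0:ℝ) 1
    · rw [Set.indicator_of_mem ht]
      apply slice_bound
      · have hc : IsClosed (Prod.mk t ⁻¹' Y) := hY.isClosed.preimage (by fun_prop)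
        have hb : Prod.mk t ⁻¹' Y ⊆ Prod.snd '' Y := by
          intro s hs
          exact ⟨(t, s), hs, rfl⟩
        exact (hY.image continuous_snd).of_isClosed_subset hc hb
      · obtain ⟨s, hs⟩ := h01 t ht
        exact ⟨s, hs⟩
      · intro s hs x hx
        exact hsw (t, x) hx s hs
    · rw [Set.indicator_of_notMem ht, add_zero]
      exact measure_mono (Set.preimage_mono hsub)
  · exact (measurable_const).indicator measurableSet_Icc

/-- key lemma -/
theorem sweep_area {X : Set (ℝ × ℝ)} (hX : IsCompact X) (hc : Convex ℝ X) (w p q : ℝ × ℝ)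
    (hp : p ∈ X) (hq : q ∈ X) :
    (volume X).toReal + (w.1 * (q.2 - p.2) - w.2 * (q.1 - p.1)) ≤
      (volume (sweep X w)).toReal := by
  have hcs := sweep_compact hX w
  have hfin : volume (sweep X w) ≠ ⊤ := hcs.measure_lt_top.ne
  have hfinX : volume X ≠ ⊤ := hX.measure_lt_top.ne
  set D := w.1 * (q.2 - p.2) - w.2 * (q.1 - p.1) with hD
  by_cases hD0 : D ≤ 0
  · have := (ENNReal.toReal_le_toReal hfinX hfin).mpr (measure_mono (subset_sweep X w))
    linarith
  push Not at hD0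
  set L : (ℝ × ℝ) →ₗ[ℝ] (ℝ × ℝ) := Matrix.toLin (Module.Basis.finTwoProd ℝ) (Module.Basis.finTwoProd ℝ)
    !![q.1 - p.1, w.1; q.2 - p.2, w.2] with hL
  have hLa : ∀ x : ℝ × ℝ, L x = ((q.1 - p.1) * x.1 + w.1 * x.2, (q.2 - p.2) * x.1 + w.2 * x.2) := by
    intro x
    rw [hL, Matrix.toLin_finTwoProd_apply]
  have hdet : LinearMap.det L = - D := by
    rw [hL, LinearMap.det_toLin, Matrix.det_fin_two_of]
    ring
  have hdet0 : LinearMap.det L ≠ 0 := by
    rw [hdet]; linarith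
  have habs : |(LinearMap.det L)⁻¹| = D⁻¹ := by
    rw [hdet, abs_inv, abs_neg, abs_of_pos hD0]
  -- preimages
  have hpre : ∀ S : Set (ℝ × ℝ), volume ((fun x => p + L x) ⁻¹' S) = ENNReal.ofReal D⁻¹ * volume S := by
    intro S
    have h1 : (fun x => p + L x) ⁻¹' S = L ⁻¹' ((fun x => p + x) ⁻¹' S) := rfl
    rw [h1, Measure.addHaar_preimage_linearMap _ hdet0, habs, measure_preimage_add]
  have hcontL : Continuous (fun x : ℝ × ℝ => p + L x) := by
    have : Continuous L := L.continuous_of_finiteDimensional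
    fun_prop
  have hker : LinearMap.ker L = ⊥ := by
    have := LinearMap.isUnit_iff_ker_eq_bot L
    rw [← this]
    rw [LinearMap.isUnit_iff_isUnit_det]
    exact isUnit_iff_ne_zero.mpr hdet0
  have hcompact : ∀ S : Set (ℝ × ℝ), IsCompact S → IsCompact ((fun x => p + L x) ⁻¹' S) := by
    intro S hS
    have he : Topology.IsClosedEmbedding (L.toContinuousLinearMap) :=
      LinearMap.isClosedEmbedding_of_injective hker
    have h1 : (fun x => p + L x) ⁻¹' S = L.toContinuousLinearMap ⁻¹' ((fun x => p + x) ⁻¹' S) := rfl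
    rw [h1]
    apply he.isCompact_preimage
    exact (Homeomorph.addLeft p).isClosedEmbedding.isCompact_preimage hS
  have key := sweep_unit (Y := (fun x => p + L x) ⁻¹' X) (Y' := (fun x => p + L x) ⁻¹' (sweep X w))
    (hcompact X hX) (hcs.measurableSet.preimage hcontL.measurable)
    (Set.preimage_mono (subset_sweep X w)) ?_ ?_
  · rw [hpre, hpre] at key
    have h2 : volume X + ENNReal.ofReal D ≤ volume (sweep X w) := by
      have hmul := mul_le_mul_right key (ENNReal.ofReal D)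
      have hDD : ENNReal.ofReal D * ENNReal.ofReal D⁻¹ = 1 := by
        rw [← ENNReal.ofReal_mul hD0.le, mul_inv_cancel₀ hD0.ne']
        simp
      rw [mul_add, mul_one, ← mul_assoc, ← mul_assoc, hDD, one_mul, one_mul] at hmul
      exact hmul
    have h3 := (ENNReal.toReal_le_toReal (by finiteness) hfin).mpr h2
    rw [ENNReal.toReal_add hfinX (by finiteness), ENNReal.toReal_ofReal hD0.le] at h3
    exact h3
  · intro t ht
    refine ⟨0, ?_⟩
    have : p + L (t, 0) = (1 - t) • p + t • q := by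
      rw [hLa]
      ext <;> simp <;> ring
    rw [Set.mem_preimage, this]
    exact hc hp hq (by linarith [ht.2]) ht.1 (by ring)
  · intro y hy s hs
    rw [Set.mem_preimage] at hy ⊢
    rw [mem_sweep]
    refine ⟨s, hs, _, hy, ?_⟩
    rw [hLa, hLa]
    ext <;> simp <;> ring

theorem zono_area {K : Set (ℝ × ℝ)} (hc : IsCompact K) (hK : Convex ℝ K) (a w1 w2 w3 : ℝ × ℝ)
    (hM : ∀ α ∈ Icc (0:ℝ) 1, ∀ β ∈ Icc (0:ℝ) 1, ∀ γ ∈ Icc (0:ℝ) 1,
      a + α • w1 + β • w2 + γ • w3 ∈ K)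
    (r1 r2 r3 : ℝ) (_h1 : 0 ≤ r1) (_h2 : 0 ≤ r2) (_h3 : 0 ≤ r3)
    (h1' : ∃ p ∈ K, ∃ q ∈ K, r1 ≤ w1.1 * (q.2 - p.2) - w1.2 * (q.1 - p.1))
    (h2' : ∃ p ∈ K, ∃ q ∈ K, r2 ≤ w2.1 * (q.2 - p.2) - w2.2 * (q.1 - p.1))
    (h3' : ∃ p ∈ K, ∃ q ∈ K, r3 ≤ w3.1 * (q.2 - p.2) - w3.2 * (q.1 - p.1)) :
    (r1 + r2 + r3) / 2 ≤ (volume K).toReal := by
  set V := (volume K).toReal with hV
  have hfinK : volume K ≠ ⊤ := hc.measure_lt_top.ne
  have hKne : ∃ k, k ∈ K := by
    obtain ⟨p, hp, -⟩ := h1'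
    exact ⟨p, hp⟩
  -- main inequality for each t
  have main : ∀ t : ℝ, 0 < t → t < 1 → (1 - t) * (r1 + r2 + r3) ≤ (2 - t) * V := by
    intro t ht0 ht1
    set X0 := (1 - t) • K with hX0
    have cX0 : IsCompact X0 := hc.smul (1 - t)
    have vX0 : Convex ℝ X0 := hK.smul (1 - t)
    set X1 := sweep X0 (t • w1) with hX1
    have cX1 : IsCompact X1 := sweep_compact cX0 _
    have vX1 : Convex ℝ X1 := sweep_convex vX0 _
    set X2 := sweep X1 (t • w2) with hX2
    have cX2 : IsCompact X2 := sweep_compact cX1 _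
    have vX2 : Convex ℝ X2 := sweep_convex vX1 _
    set X3 := sweep X2 (t • w3) with hX3
    have s01 : X0 ⊆ X1 := subset_sweep _ _
    have s12 : X1 ⊆ X2 := subset_sweep _ _
    -- step
    have step : ∀ (X : Set (ℝ × ℝ)) (w : ℝ × ℝ) (r : ℝ), IsCompact X → Convex ℝ X → X0 ⊆ X →
        (∃ p ∈ K, ∃ q ∈ K, r ≤ w.1 * (q.2 - p.2) - w.2 * (q.1 - p.1)) →
        (volume X).toReal + t * (1 - t) * r ≤ (volume (sweep X (t • w))).toReal := by
      intro X w r cX vX hsub ⟨p, hp, q, hq, hr⟩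
      have hp' : (1 - t) • p ∈ X := hsub ⟨p, hp, rfl⟩
      have hq' : (1 - t) • q ∈ X := hsub ⟨q, hq, rfl⟩
      have hk := sweep_area cX vX (t • w) _ _ hp' hq'
      simp only [Prod.smul_fst, Prod.smul_snd, smul_eq_mul] at hk
      have hmul : t * (1 - t) * r ≤ t * (1 - t) * (w.1 * (q.2 - p.2) - w.2 * (q.1 - p.1)) :=
        mul_le_mul_of_nonneg_left hr (mul_nonneg ht0.le (by linarith))
      nlinarith [hk, hmul]
    have e1 := step X0 w1 r1 cX0 vX0 (le_refl _) h1'
    have e2 := step X1 w2 r2 cX1 vX1 s01 h2'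
    have e3 := step X2 w3 r3 cX2 vX2 (s01.trans s12) h3'
    have e0 : (volume X0).toReal = (1 - t) ^ 2 * V := by
      rw [hX0, Measure.addHaar_smul, ENNReal.toReal_mul, hV]
      congr 1
      rw [Module.finrank_prod, Module.finrank_self]
      rw [ENNReal.toReal_ofReal (abs_nonneg _), abs_of_nonneg (by positivity)]
    have hin : (fun x => t • a + x) '' X3 ⊆ K := by
      rintro _ ⟨x3, hx3, rfl⟩
      rw [hX3, mem_sweep] at hx3
      obtain ⟨γ, hγ, x2, hx2, rfl⟩ := hx3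
      rw [hX2, mem_sweep] at hx2
      obtain ⟨β, hβ, x1, hx1, rfl⟩ := hx2
      rw [hX1, mem_sweep] at hx1
      obtain ⟨α, hα, x0, hx0, rfl⟩ := hx1
      rw [hX0] at hx0
      obtain ⟨k, hk, rfl⟩ := hx0
      have h := hK hk (hM α hα β hβ γ hγ) (show (0:ℝ) ≤ 1 - t by linarith) ht0.le (by ring)
      have he : t • a + ((1 - t) • k + α • t • w1 + β • t • w2 + γ • t • w3) =
          (1 - t) • k + t • (a + α • w1 + β • w2 + γ • w3) := by
        ext <;> simp <;> ring
      simp only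
      rw [he]
      exact h
    have hle : (volume X3).toReal ≤ V := by
      have h4 : volume ((fun x => t • a + x) '' X3) = volume X3 := by
        rw [Set.image_add_left, measure_preimage_add]
      rw [← h4]
      exact ENNReal.toReal_mono hfinK (measure_mono hin)
    have htot : t * ((1 - t) * (r1 + r2 + r3)) ≤ t * ((2 - t) * V) := by
      nlinarith [e0, e1, e2, e3, hle]
    exact le_of_mul_le_mul_left htot ht0
  -- limit
  by_contra hcon
  push Not at hcon
  have hVn : 0 ≤ V := ENNReal.toReal_nonneg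
  set R := r1 + r2 + r3 with hR
  set e := R - 2 * V with he
  have he0 : 0 < e := by linarith
  have hRpos : 0 < R := by linarith
  set t := e / (2 * R) with ht
  have ht0 : 0 < t := by positivity
  have ht1 : t < 1 := by
    rw [ht, div_lt_one (by positivity)]
    linarith
  have h := main t ht0 ht1
  have htR : t * R = e / 2 := by
    rw [ht]; field_simp
  nlinarith [mul_nonneg ht0.le hVn]

end Pool.Agent.V7H24.Cov
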